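import Pool.Graph.R_pool_sql_team_seeded_3997aac3.Q31.NF.RAYA
import Pool.Graph.R_pool_sql_team_seeded_3997aac3.Q84.AR.Hecke
import Pool.Graph.R_seed8.R362.HkFe2
import Pool.Graph.R_seed8.W215.UN.Gam

set_option autoImplicit false
set_option linter.unusedSectionVars false

/-!
Project NF (helper253), job RAYD: the data `Dat` of the L-function of a primitive ray class character.
-/

namespace Pool.Agent.H289.NF

open MeasureTheory Filter Topology Set Complex NumberField IsDedekindDomain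
open Pool.Agent.Q253.NF
open Pool.Agent.Y773 (LI GG TPos)
open Pool.Agent.W169.HF (Slow)
open Pool.Agent.R362.HL (HXi IsUnr)
open scoped ComplexConjugate

/-! ### Slow growth -/

/-- slow growth on a set -/
def SlowOn (S : Set ℂ) (f : ℂ → ℂ) : Prop :=
  ∀ δ : ℝ, 0 < δ → ∃ K : ℝ, 0 < K ∧ ∀ s ∈ S, ‖f s‖ ≤ K * Real.exp (δ * ‖s‖ ^ 2)

theorem SlowOn.mul {S : Set ℂ} {f g : ℂ → ℂ} (hf : SlowOn S f) (hg : SlowOn S g) :
    SlowOn S (fun s => f s * g s) := by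
  intro δ hδ
  obtain ⟨K1, h1, hf1⟩ := hf (δ / 2) (by positivity)
  obtain ⟨K2, h2, hg1⟩ := hg (δ / 2) (by positivity)
  refine ⟨K1 * K2, by positivity, fun s hs => ?_⟩
  rw [norm_mul]
  have e : δ * ‖s‖ ^ 2 = δ / 2 * ‖s‖ ^ 2 + δ / 2 * ‖s‖ ^ 2 := by ring
  rw [e, Real.exp_add]
  calc ‖f s‖ * ‖g s‖ ≤ (K1 * Real.exp (δ / 2 * ‖s‖ ^ 2)) * (K2 * Real.exp (δ / 2 * ‖s‖ ^ 2)) :=
        mul_le_mul (hf1 s hs) (hg1 s hs) (norm_nonneg _) (by positivity)
    _ = _ := by ring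

/-- exponential growth is slow -/
theorem slowOn_exp {S : Set ℂ} {f : ℂ → ℂ} {A B : ℝ} (hA : 0 ≤ A)
    (h : ∀ s ∈ S, ‖f s‖ ≤ A * Real.exp (B * ‖s‖)) : SlowOn S f := by
  intro δ hδ
  refine ⟨(A + 1) * Real.exp (B ^ 2 / (4 * δ)), by positivity, fun s hs => ?_⟩
  refine (h s hs).trans ?_
  rw [mul_assoc, ← Real.exp_add]
  have h1 : B * ‖s‖ ≤ B ^ 2 / (4 * δ) + δ * ‖s‖ ^ 2 := by
    have h2 : B ^ 2 / (4 * δ) + δ * ‖s‖ ^ 2 - B * ‖s‖ = (2 * δ * ‖s‖ - B) ^ 2 / (4 * δ) := by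
      field_simp
      ring
    have h3 : 0 ≤ (2 * δ * ‖s‖ - B) ^ 2 / (4 * δ) := by positivity
    linarith
  have h2 := Real.exp_le_exp.2 h1
  have h3 := Real.exp_pos (B * ‖s‖)
  calc A * Real.exp (B * ‖s‖) ≤ (A + 1) * Real.exp (B * ‖s‖) := by nlinarith
    _ ≤ _ := by gcongr

theorem SlowOn.prod {S : Set ℂ} {ι : Type} (t : Finset ι) (f : ι → ℂ → ℂ) (h : ∀ i, SlowOn S (f i)) :
    SlowOn S (fun s => ∏ i ∈ t, f i s) := by
  classical
  induction t using Finset.induction_on with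
  | empty =>
    refine slowOn_exp (A := 1) (B := 0) zero_le_one fun s _ => ?_
    simp
  | insert a t ha ih =>
    have e : (fun s => ∏ i ∈ insert a t, f i s) = fun s => f a s * ∏ i ∈ t, f i s := by
      funext s
      rw [Finset.prod_insert ha]
    rw [e]
    exact (h a).mul ih

section
variable {K : Type} [Field K] [NumberField K]

/-- the completed L-function grows slowly -/
theorem slow_of {R : ℝ} {e : InfinitePlace K → ℕ} {r : ℕ} {ψ : Ideal (𝓞 K) →*₀ ℂ} {X : ℂ → ℂ}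
    (hX : HXi R e r ψ X) (hψ : ∀ 𝔞, ‖ψ 𝔞‖ ≤ 1) : Slow X := by
  obtain ⟨A, hA1, hdir⟩ := Pool.Agent.Y772.DK.t_dirK K
  obtain ⟨-, -, -, -, hA, -⟩ := hdir ψ hψ
  have hR0 : 0 < R := lt_of_lt_of_le one_pos hX.one_le
  -- the right half-plane
  have hr : SlowOn {s : ℂ | 2 ≤ s.re} X := by
    have h1 : SlowOn {s : ℂ | 2 ≤ s.re} fun s => (s * (s - 1)) ^ r *
        ((R : ℂ) ^ (s / 2) * ∏ φ : K →+* ℂ, Complex.Gammaℝ (s + Pool.Agent.Y773.G.ex e φ)) * LI ψ s := by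
      refine SlowOn.mul (SlowOn.mul ?_ (SlowOn.mul ?_ ?_)) ?_
      · refine slowOn_exp (A := 1) (B := 2 * r) zero_le_one fun s _ => ?_
        rw [norm_pow, one_mul]
        have h2 : ‖s * (s - 1)‖ ≤ Real.exp (2 * ‖s‖) := by
          rw [norm_mul]
          have h3 : ‖s - 1‖ ≤ ‖s‖ + 1 := by
            have := norm_sub_le s 1
            rwa [norm_one] at this
          have h4 : ‖s‖ + 1 ≤ Real.exp ‖s‖ := Real.add_one_le_exp _
          have h5 : Real.exp (2 * ‖s‖) = Real.exp ‖s‖ * Real.exp ‖s‖ := by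
            rw [← Real.exp_add]; ring_nf
          rw [h5]
          exact mul_le_mul (by linarith) (h3.trans h4) (norm_nonneg _) (Real.exp_pos _).le
        calc ‖s * (s - 1)‖ ^ r ≤ Real.exp (2 * ‖s‖) ^ r := pow_le_pow_left₀ (norm_nonneg _) h2 r
          _ = Real.exp (2 * r * ‖s‖) := by rw [← Real.exp_nat_mul]; ring_nf
      · refine slowOn_exp (A := 1) (B := Real.log R / 2) zero_le_one fun s _ => ?_
        rw [Complex.norm_cpow_eq_rpow_re_of_pos hR0, one_mul, Real.rpow_def_of_pos hR0]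
        refine Real.exp_le_exp.2 ?_
        have h2 : (s / 2).re = s.re / 2 := by simp
        rw [h2]
        have h3 := Real.log_nonneg hX.one_le
        have h4 : s.re ≤ ‖s‖ := Complex.re_le_norm s
        nlinarith
      · refine SlowOn.prod Finset.univ _ fun φ => ?_
        intro δ hδ
        obtain ⟨K, hK, h2⟩ := Pool.Agent.W215.UN.gam ((Pool.Agent.Y773.G.ex e φ : ℕ) : ℂ) (by
          rw [natCast_re]
          have : (0 : ℝ) ≤ (Pool.Agent.Y773.G.ex e φ : ℕ) := Nat.cast_nonneg _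
          linarith) δ hδ
        exact ⟨K, hK, fun s hs => h2 s hs⟩
      · refine slowOn_exp (A := A) (B := 0) (by linarith) fun s hs => ?_
        rw [zero_mul, Real.exp_zero, mul_one]
        exact hA s (by
          have : 2 ≤ s.re := hs
          linarith)
    intro δ hδ
    obtain ⟨K, hK, h2⟩ := h1 δ hδ
    refine ⟨K, hK, fun s hs => ?_⟩
    have hs1 : 2 ≤ s.re := hs
    rw [hX.eq s (by linarith)]
    exact h2 s hs
  -- the strip
  have hm : SlowOn {s : ℂ | -1 ≤ s.re ∧ s.re ≤ 2} X := by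
    obtain ⟨C, hC, h1⟩ := hX.strip (-1) 2
    refine slowOn_exp (A := C) (B := 2) hC fun s hs => ?_
    refine (h1 s hs.1 hs.2).trans ?_
    refine mul_le_mul_of_nonneg_left ?_ hC
    have h4 : ‖s‖ + 1 ≤ Real.exp ‖s‖ := Real.add_one_le_exp _
    have h5 : Real.exp (2 * ‖s‖) = Real.exp ‖s‖ ^ 2 := by
      rw [← Real.exp_nat_mul]; norm_num
    rw [h5]
    exact pow_le_pow_left₀ (by positivity) (by linarith) 2
  refine ⟨hX.diff, fun δ hδ => ?_⟩
  obtain ⟨w, hw, hfe⟩ := hX.fe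
  obtain ⟨K1, hK1, h1⟩ := hr (δ / 2) (by positivity)
  obtain ⟨K2, hK2, h2⟩ := hm δ hδ
  refine ⟨K1 * Real.exp δ + K2, by positivity, fun z => ?_⟩
  have hez : 0 < Real.exp (δ * ‖z‖ ^ 2) := Real.exp_pos _
  have hed : 1 ≤ Real.exp δ := Real.one_le_exp hδ.le
  rcases le_total 2 z.re with hz | hz
  · refine (h1 z hz).trans ?_
    have h3 : Real.exp (δ / 2 * ‖z‖ ^ 2) ≤ Real.exp (δ * ‖z‖ ^ 2) := by
      apply Real.exp_le_exp.2
      nlinarith [sq_nonneg ‖z‖]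
    calc K1 * Real.exp (δ / 2 * ‖z‖ ^ 2) ≤ K1 * 1 * Real.exp (δ * ‖z‖ ^ 2) := by
          rw [mul_one]; gcongr
      _ ≤ (K1 * Real.exp δ + K2) * Real.exp (δ * ‖z‖ ^ 2) := by
          refine mul_le_mul_of_nonneg_right ?_ hez.le
          nlinarith
  · rcases le_total (-1) z.re with hz1 | hz1
    · refine (h2 z ⟨hz1, hz⟩).trans ?_
      refine mul_le_mul_of_nonneg_right ?_ hez.le
      have : 0 < K1 * Real.exp δ := by positivity
      linarith
    · rw [hfe z, norm_mul, hw, one_mul, Complex.norm_conj]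
      have h3 : 2 ≤ (1 - conj z).re := by
        rw [sub_re, one_re, conj_re]
        linarith
      refine (h1 _ h3).trans ?_
      have h4 : ‖1 - conj z‖ ≤ 1 + ‖z‖ := by
        have := norm_sub_le 1 (conj z)
        rwa [norm_one, Complex.norm_conj] at this
      have h5 : ‖1 - conj z‖ ^ 2 ≤ (1 + ‖z‖) ^ 2 := pow_le_pow_left₀ (norm_nonneg _) h4 2
      have h6 : Real.exp (δ / 2 * ‖1 - conj z‖ ^ 2) ≤ Real.exp δ * Real.exp (δ * ‖z‖ ^ 2) := by
        rw [← Real.exp_add]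
        apply Real.exp_le_exp.2
        nlinarith [sq_nonneg (‖z‖ - 1), norm_nonneg z]
      calc K1 * Real.exp (δ / 2 * ‖1 - conj z‖ ^ 2) ≤ K1 * (Real.exp δ * Real.exp (δ * ‖z‖ ^ 2)) := by
            gcongr
        _ = (K1 * Real.exp δ) * Real.exp (δ * ‖z‖ ^ 2) := by ring
        _ ≤ _ := by
          refine mul_le_mul_of_nonneg_right ?_ hez.le
          linarith

/-! ### Gamma factors -/

open Classical in
/-- the product of the Gamma factors over the embeddings -/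
theorem prod_ex (e : InfinitePlace K → ℕ) (s : ℂ) :
    ∏ φ : K →+* ℂ, Complex.Gammaℝ (s + Pool.Agent.Y773.G.ex e φ) = gam e s := by
  unfold gam
  rw [← Finset.prod_fiberwise Finset.univ InfinitePlace.mk]
  refine Finset.prod_congr rfl fun w _ => ?_
  by_cases hw : w.IsReal
  · rw [if_pos hw]
    have h1 : (Finset.univ.filter fun φ : K →+* ℂ => InfinitePlace.mk φ = w) = {w.embedding} := by
      ext φ
      rw [Finset.mem_filter, Finset.mem_singleton]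
      constructor
      · rintro ⟨-, h⟩
        subst h
        rw [InfinitePlace.embedding_mk_eq_of_isReal]
        exact InfinitePlace.isReal_mk_iff.1 hw
      · rintro rfl
        exact ⟨Finset.mem_univ _, InfinitePlace.mk_embedding w⟩
    rw [h1, Finset.prod_singleton]
    unfold Pool.Agent.Y773.G.ex
    rw [InfinitePlace.mk_embedding, if_pos hw]
  · rw [if_neg hw]
    have hne : w.embedding ≠ ComplexEmbedding.conjugate w.embedding := by
      intro h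
      apply hw
      rw [InfinitePlace.isReal_iff]
      exact h.symm
    have h1 : (Finset.univ.filter fun φ : K →+* ℂ => InfinitePlace.mk φ = w) =
        {w.embedding, ComplexEmbedding.conjugate w.embedding} := by
      ext φ
      rw [Finset.mem_filter, Finset.mem_insert, Finset.mem_singleton]
      constructor
      · rintro ⟨-, h⟩
        have h2 : InfinitePlace.mk w.embedding = InfinitePlace.mk φ := by
          rw [InfinitePlace.mk_embedding, h]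
        rcases InfinitePlace.mk_eq_iff.1 h2 with h3 | h3
        · exact Or.inl h3.symm
        · exact Or.inr h3.symm
      · rintro (rfl | rfl)
        · exact ⟨Finset.mem_univ _, InfinitePlace.mk_embedding w⟩
        · refine ⟨Finset.mem_univ _, ?_⟩
          rw [InfinitePlace.mk_conjugate_eq, InfinitePlace.mk_embedding]
    rw [h1, Finset.prod_insert (by rwa [Finset.mem_singleton]), Finset.prod_singleton]
    unfold Pool.Agent.Y773.G.ex
    rw [InfinitePlace.mk_conjugate_eq, InfinitePlace.mk_embedding, if_neg hw, if_neg hw, if_pos rfl,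
      if_neg hne, Nat.cast_zero, add_zero, Nat.cast_one, Complex.Gammaℝ_mul_Gammaℝ_add_one]

/-! ### The logarithmic derivative -/

/-- the number `(n + 1) log q_v` -/
noncomputable def lk (x : HeightOneSpectrum (𝓞 K) × ℕ) : ℝ :=
  ((x.2 : ℝ) + 1) * Real.log (Ideal.absNorm x.1.asIdeal)

/-- the coefficients `ψ(v)^(n+1) log q_v q_v^(-(n+1)/2)` -/
noncomputable def bk (ψ : Ideal (𝓞 K) →*₀ ℂ) (x : HeightOneSpectrum (𝓞 K) × ℕ) : ℂ :=
  ψ x.1.asIdeal ^ (x.2 + 1) * ((Real.log (Ideal.absNorm x.1.asIdeal) *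
    Real.exp (-(((x.2 : ℝ) + 1) * Real.log (Ideal.absNorm x.1.asIdeal) / 2)) : ℝ) : ℂ)

theorem lk_nonneg (x : HeightOneSpectrum (𝓞 K) × ℕ) : 0 ≤ lk x :=
  mul_nonneg (by positivity) (Real.log_natCast_nonneg _)

theorem hasSum_ld {ψ : Ideal (𝓞 K) →*₀ ℂ} (hψ : ∀ 𝔞, ‖ψ 𝔞‖ ≤ 1) {s : ℂ} (hs : 1 < s.re) :
    HasSum (fun x : HeightOneSpectrum (𝓞 K) × ℕ => bk ψ x * cexp (-(s - 1 / 2) * lk x))
      (-(deriv (Pool.Agent.Y772.DK.LA (Pool.Agent.Y772.DK.ee ψ)) s)) := by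
  have h1 := Pool.Agent.Y772.DK.D_hasSum ψ hψ hs
  let j : HeightOneSpectrum (𝓞 K) × ℕ → Ideal (𝓞 K) := fun x => x.1.asIdeal ^ (x.2 + 1)
  have hj : Function.Injective j := by
    rintro ⟨p, k⟩ ⟨q, l⟩ h
    have hp := Pool.Agent.Q84.AR.prime_v p
    have hq := Pool.Agent.Q84.AR.prime_v q
    have h2 : p.asIdeal ^ (k + 1) = q.asIdeal ^ (l + 1) := h
    have hpq : p.asIdeal = q.asIdeal := by
      have h3 : p.asIdeal ∣ q.asIdeal :=
        hp.dvd_of_dvd_pow (h2 ▸ dvd_pow_self p.asIdeal (by omega))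
      have := (hp.dvd_prime_iff_associated hq).mp h3
      rwa [associated_iff_eq] at this
    have hpq' : p = q := HeightOneSpectrum.ext hpq
    subst hpq'
    have h4 : k + 1 = l + 1 := pow_injective_of_not_isUnit hp.not_isUnit hp.ne_zero h2
    have h5 : k = l := by omega
    rw [h5]
  have h2 := (hj.hasSum_iff (f := fun 𝔞 : Ideal (𝓞 K) =>
    (Pool.Agent.Y773.VM 𝔞 : ℂ) * ψ 𝔞 * ((Ideal.absNorm 𝔞 : ℕ) : ℂ) ^ (-s)) (by
      intro 𝔞 h𝔞
      have h3 : ¬ IsPrimePow 𝔞 := by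
        rintro ⟨p, k, hp, hk, rfl⟩
        apply h𝔞
        refine ⟨(Pool.Agent.Q84.AR.hsp p hp, k - 1), ?_⟩
        change p ^ (k - 1 + 1) = p ^ k
        rw [Nat.sub_add_cancel hk]
      rw [Pool.Agent.Y772.DK.VM_of_not h3, ofReal_zero, zero_mul, zero_mul])).2 h1
  refine h2.congr_fun ?_
  rintro ⟨v, k⟩
  have hv := Pool.Agent.Q84.AR.prime_v v
  have h4 : Ideal.absNorm v.asIdeal ≠ 0 := fun h1 => hv.ne_zero (Ideal.absNorm_eq_zero_iff.mp h1)
  have h4c : ((Ideal.absNorm v.asIdeal : ℕ) : ℂ) ≠ 0 := by exact_mod_cast h4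
  change bk ψ (v, k) * cexp (-(s - 1 / 2) * lk (v, k)) =
    (Pool.Agent.Y773.VM (v.asIdeal ^ (k + 1)) : ℂ) * ψ (v.asIdeal ^ (k + 1)) *
      ((Ideal.absNorm (v.asIdeal ^ (k + 1)) : ℕ) : ℂ) ^ (-s)
  rw [Pool.Agent.Y772.DK.VM_pow hv (by omega), map_pow, map_pow,
    Pool.Agent.Y773.natCast_pow_cpow, Complex.cpow_def_of_ne_zero h4c, ← Complex.exp_nat_mul,
    Complex.natCast_log]
  unfold bk lk
  simp only
  push_cast
  rw [mul_assoc (ψ v.asIdeal ^ (k + 1)), mul_assoc (Complex.log _), ← Complex.exp_add]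
  have e : -(((k : ℂ) + 1) * Complex.log ((Ideal.absNorm v.asIdeal : ℕ) : ℂ) / 2) +
      -(s - 1 / 2) * (((k : ℂ) + 1) * Complex.log ((Ideal.absNorm v.asIdeal : ℕ) : ℂ)) =
      ((k : ℂ) + 1) * (Complex.log ((Ideal.absNorm v.asIdeal : ℕ) : ℂ) * -s) := by ring
  rw [e]
  ring

theorem ld {ψ : Ideal (𝓞 K) →*₀ ℂ} (hψ : ∀ 𝔞, ‖ψ 𝔞‖ ≤ 1) {s : ℂ} (hs : 1 < s.re) :
    logDeriv (LI ψ) s = - ∑' x, bk ψ x * cexp (-(s - 1 / 2) * lk x) := by
  rw [(hasSum_ld hψ hs).tsum_eq, neg_neg, logDeriv_apply, Pool.Agent.Y772.DK.deriv_LI ψ hψ hs,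
    mul_div_assoc, div_self, mul_one]
  rw [Pool.Agent.Y772.DK.LI_eq_exp ψ hψ hs]
  exact Complex.exp_ne_zero _

theorem summ {ψ : Ideal (𝓞 K) →*₀ ℂ} (hψ : ∀ 𝔞, ‖ψ 𝔞‖ ≤ 1) {x : ℝ} (hx : 1 / 2 < x) :
    Summable fun k : HeightOneSpectrum (𝓞 K) × ℕ => ‖bk ψ k‖ * Real.exp (-(x * lk k)) := by
  have h1 : 1 < ((x + 1 / 2 : ℝ) : ℂ).re := by
    rw [ofReal_re]
    linarith
  refine (hasSum_ld hψ h1).summable.norm.congr fun k => ?_
  rw [norm_mul, Complex.norm_exp]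
  congr 2
  have e : -(((x + 1 / 2 : ℝ) : ℂ) - 1 / 2) * (lk k : ℂ) = ((-(x * lk k) : ℝ) : ℂ) := by
    push_cast
    ring
  rw [e, ofReal_re]

end

/-- **Job RAYD.** -/
theorem rayd : S_RAYD := by
  intro hLTG F _ _ 𝔣 e ψ hP
  classical
  have hsg : ∀ x : F, Pool.Agent.Y773.G.sg e x =
      ∏ w : InfinitePlace F, (((SignType.sign (w.embedding x).re : SignType) : ℤ) : ℂ) ^ e w := by
    intro x
    unfold Pool.Agent.Y773.G.sg
    refine Finset.prod_congr rfl fun w _ => ?_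
    rcases w.isReal_or_isComplex with hw | hw
    · rw [Pool.Agent.Y773.G.rl_of_isReal hw]
    · rw [hP.e_complex w hw, pow_zero, pow_zero]
  have hsig : ∀ x : 𝓞 F, x ≠ 0 → x - 1 ∈ 𝔣 → ψ (Ideal.span {x}) = Pool.Agent.Y773.G.sg e (x : F) := by
    intro x h0 h1
    rw [hP.sig x h0 h1, hsg]
  have hray : ∀ x : 𝓞 F, x ≠ 0 → x - 1 ∈ 𝔣 → TPos F x → ψ (Ideal.span {x}) = 1 := by
    intro x h0 h1 h2
    rw [hsig x h0 h1, Pool.Agent.Y773.G.sg_TPos e h0 h2]
  have hp : Pool.Agent.Y773.G.IsPrimChar F 𝔣 ψ := ⟨hP.ne_bot, hP.supp, hray, hP.prim⟩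
  have hψ : ∀ 𝔞, ‖ψ 𝔞‖ ≤ 1 := hp.norm_le_one Pool.Agent.Y772.G.t_sig
  obtain ⟨p, hpdef⟩ : ∃ p : ℕ, p = if ∀ 𝔞 : Ideal (𝓞 F), 𝔞 ≠ ⊥ → ψ 𝔞 = 1 then 1 else 0 := ⟨_, rfl⟩
  -- the completed L-function
  have hX : ∃ X : ℂ → ℂ, HXi (((Ideal.absNorm 𝔣 : ℝ) * |(discr F : ℝ)| : ℝ)) e p ψ X := by
    have hdisc : ((Ideal.absNorm (differentIdeal ℤ (𝓞 F)) : ℕ) : ℝ) = |(discr F : ℝ)| := by
      rw [absNorm_differentIdeal (K := F) (𝒪 := 𝓞 F)]
      rw [Nat.cast_natAbs, Int.cast_abs]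
    by_cases htop : 𝔣 = ⊤
    · have hU : IsUnr e ψ := ⟨hP.e_le, hP.e_complex, fun x h0 => hsig x h0 (by rw [htop]; trivial)⟩
      have hr : p = 1 ∨ (p = 0 ∧ ∃ 𝔞 : Ideal (𝓞 F), 𝔞 ≠ ⊥ ∧ ψ 𝔞 ≠ 1) := by
        by_cases ht : ∀ 𝔞 : Ideal (𝓞 F), 𝔞 ≠ ⊥ → ψ 𝔞 = 1
        · rw [if_pos ht] at hpdef
          exact Or.inl hpdef
        · rw [if_neg ht] at hpdef
          push Not at ht
          exact Or.inr ⟨hpdef, ht⟩
      obtain ⟨X, hX⟩ := Pool.Agent.R362.HL.xi_unr hU hr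
      refine ⟨X, ?_⟩
      rw [hdisc] at hX
      have e1 : ((Ideal.absNorm 𝔣 : ℝ) * |(discr F : ℝ)| : ℝ) = |(discr F : ℝ)| := by
        rw [htop, Ideal.absNorm_top, Nat.cast_one, one_mul]
      rw [e1]
      exact hX
    · have hM : Pool.Agent.Y773.G.IsModChar 𝔣 e ψ := by
        refine ⟨hP.ne_bot, htop, hP.e_le, hP.e_complex, fun 𝔞 => ?_, hsig⟩
        by_cases h0 : 𝔞 = ⊥
        · subst h0
          have h1 : ψ (⊥ : Ideal (𝓞 F)) = 0 := map_zero ψ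
          constructor
          · intro h2
            exact absurd h1 h2
          · intro h2
            exfalso
            rw [Ideal.isCoprime_iff_sup_eq, bot_sup_eq] at h2
            exact htop h2
        · exact hP.supp 𝔞 h0
      have hp0 : p = 0 := by
        rw [hpdef, if_neg]
        intro h
        have h1 := h 𝔣 hP.ne_bot
        have h2 := (hP.supp 𝔣 hP.ne_bot).1 (by rw [h1]; exact one_ne_zero)
        rw [Ideal.isCoprime_iff_sup_eq, sup_idem] at h2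
        exact htop h2
      obtain ⟨X, hX⟩ := Pool.Agent.R362.HL.xi_prim hp hM
      refine ⟨X, ?_⟩
      rw [Nat.cast_mul, hdisc] at hX
      rw [hp0]
      exact hX
  obtain ⟨X, hX⟩ := hX
  obtain ⟨w, hw, hfe⟩ := hX.fe
  have hN : (0 : ℝ) < (Ideal.absNorm 𝔣 : ℝ) * |(discr F : ℝ)| := lt_of_lt_of_le one_pos hX.one_le
  obtain ⟨A, -, hdir⟩ := Pool.Agent.Y772.DK.t_dirK F
  obtain ⟨-, hd, hne, -⟩ := hdir ψ hψ
  obtain ⟨c, D, hc, hE, hDp, hDX⟩ := Pool.Agent.Q31.NF.mk_dat hLTG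
    (HeightOneSpectrum (𝓞 F) × ℕ) (bk ψ) lk lk_nonneg (fun x hx => summ hψ hx) X w
    (slow_of hX hψ) hw hfe ((Ideal.absNorm 𝔣 : ℝ) * |(discr F : ℝ)|) hN
    (Pool.Agent.Y773.G.ex e) (Pool.Agent.Y773.G.ex_le hP.e_le) p (LI ψ) hd hne
    (fun s hs => ld hψ hs) (fun s hs => by
      rw [hX.eq s hs]
      unfold GG
      ring)
  refine ⟨D, ⟨fun u => ?_, ?_, c, hc, fun z hz => ?_⟩⟩
  · rw [hE u]
    unfold ks
    refine tsum_congr fun x => ?_
    rw [if_pos (mem_univ _)]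
    unfold bk lk
    push_cast
    ring
  · rw [hDp, hpdef]
  · have h1 : 1 < (1 / 2 + z).re := by
      rw [add_re]
      norm_num
      linarith
    rw [hDX z, hX.eq _ h1, hDp, prod_ex]
    have h2 : (1 / 2 + z - 1 : ℂ) = z - 1 / 2 := by ring
    rw [h2]
    ring

end Pool.Agent.H289.NF
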